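import Pool.Agent.Lib.MP_d7353d_co.UAll

namespace Pool.Agent.Results.MP_d7353d_co.FullList

open Pool.Agent.Lib.MP_d7353d_co

theorem result (V : Type) [Fintype V] (G : SimpleGraph V) :
    IsMinNonCircle G ↔ ∃ B : MG, Listed B ∧ Nonempty (G ≃g B.graph) :=
  U.mainAll V G

end Pool.Agent.Results.MP_d7353d_co.FullList
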